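import Pool.Agent.Lib_helper12.HE.FI

set_option autoImplicit false

namespace Pool.Agent.Results.MP_b08f5f_an.HighEnergy

open MeasureTheory Filter Topology Set
open scoped ComplexConjugate ENNReal

noncomputable section

/-- configurations of `N` points of the plane -/
abbrev Conf (N : ℕ) := Fin N → ℂ

/-- the velocities of `N` vortices of strength one: `-(i/2π) ∑_{j ≠ i} 1 / conj (z i - z j)` -/
def vel {N : ℕ} (z : Conf N) : Conf N := fun i =>
  -(Complex.I / (2 * Real.pi)) * ∑ j ∈ Finset.univ.erase i, 1 / conj (z i - z j)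

/-- `w` is, for all times and without collision, a solution of the vortex equations -/
def Motion {N : ℕ} (w : ℝ → Conf N) : Prop :=
  ∀ t, Function.Injective (w t) ∧ ∀ i, HasDerivAt (fun s => w s i) (vel (w t) i) t

/-- the energy `H = -(1/4π) ∑_{i ≠ j} log |z i - z j|` -/
def energy {N : ℕ} (z : Conf N) : ℝ :=
  -(1 / (4 * Real.pi)) * ∑ i, ∑ j ∈ Finset.univ.erase i, Real.log ‖z i - z j‖

/-- the centre `Z` -/
def centre {N : ℕ} (z : Conf N) : ℂ := (∑ i, z i) / N

/-- the radius `r`, where `r ^ 2 = (1/N) ∑ |z i - Z| ^ 2` -/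
def radius {N : ℕ} (z : Conf N) : ℝ := Real.sqrt ((∑ i, ‖z i - centre z‖ ^ 2) / N)

/-- the part `{H ≥ E}` of the sphere `Γ_N`, without the collisions -/
def High (N : ℕ) (E : ℝ) : Set (Conf N) :=
  {z | Function.Injective z ∧ ∑ i, z i = 0 ∧ (∑ i, ‖z i‖ ^ 2) / (N : ℝ) = 1 ∧ E ≤ energy z}

/-- the surface measure of `Γ_N`, up to a constant factor: the Lebesgue measure of the set of all
`z` with `|Z| ≤ 1`, `1 ≤ r < 2` and `(z - Z) / r ∈ B` -/
def sigma (N : ℕ) (B : Set (Conf N)) : ℝ≥0∞ :=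
  volume {z : Conf N | ‖centre z‖ ≤ 1 ∧ 1 ≤ radius z ∧ radius z < 2 ∧
    (fun i => (z i - centre z) / radius z) ∈ B}

/-- `l` is the time average of `F` along `w` -/
def TimeAvg {N : ℕ} (w : ℝ → Conf N) (F : Conf N → ℝ) (l : ℝ) : Prop :=
  Tendsto (fun T : ℝ => T⁻¹ * ∫ t in (0 : ℝ)..T, F (w t)) atTop (𝓝 l)

/-- the integral of `f` against `μ_*`, which is `(N-1)/N` times the uniform probability measure
on the circle `|x| = (N-1)^(-1/2)` plus `1/N` times that on the circle `|x| = (N-1)^(1/2)` -/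
def muStar (N : ℕ) (f : ℂ → ℝ) : ℝ :=
  ((N - 1) / N) * ((2 * Real.pi)⁻¹ * ∫ s in (0 : ℝ)..2 * Real.pi,
      f ((Real.sqrt (N - 1) : ℂ)⁻¹ * Complex.exp (s * Complex.I))) +
    (1 / N) * ((2 * Real.pi)⁻¹ * ∫ s in (0 : ℝ)..2 * Real.pi,
      f ((Real.sqrt (N - 1) : ℂ) * Complex.exp (s * Complex.I)))

theorem sigma_eq (N : ℕ) (B : Set (Conf N)) :
    sigma N B = Pool.Agent.Lib_helper12.HE.sig N B := by
  unfold sigma Pool.Agent.Lib_helper12.HE.sig
  congr 1
  ext z
  have h : (fun i => (z i - centre z) / (radius z : ℂ)) = Pool.Agent.Lib_helper12.HE.nrm z := by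
    funext i
    change (z i - centre z) / (radius z : ℂ) = ((radius z : ℝ) : ℂ)⁻¹ * (z i - centre z)
    rw [div_eq_inv_mul]
  simp only [mem_ofPred_eq, Pool.Agent.Lib_helper12.HE.shell]
  rw [h, one_add_one_eq_two]
  change _ ↔ (‖centre z‖ ≤ 1 ∧ 1 ≤ radius z ∧ radius z < 2) ∧ _
  tauto

theorem High_eq (N : ℕ) (E : ℝ) : High N E = Pool.Agent.Lib_helper12.HE.Hi N E := by
  ext z
  change (Function.Injective z ∧ ∑ i, z i = 0 ∧ (∑ i, ‖z i‖ ^ 2) / (N : ℝ) = 1 ∧ E ≤ energy z) ↔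
    (Function.Injective z ∧ ∑ i, z i = 0 ∧ (∑ i, ‖z i‖ ^ 2) / (N : ℝ) = 1) ∧ E ≤ energy z
  tauto

theorem result (N : ℕ) (hN : 3 ≤ N) :
    ∃ c > 0, ∃ E₀ : ℝ, ∀ E ≥ E₀,
      0 < sigma N (High N E) ∧ sigma N (High N E) < ⊤ ∧
      ∃ Bad ⊆ High N E,
        -- the exceptional data: an exponentially small share of `{H ≥ E}`
        sigma N Bad ≤ ENNReal.ofReal (Real.exp (-(c * E))) * sigma N (High N E) ∧
        -- every other datum
        ∀ z ∈ High N E, z ∉ Bad → ∃ w : ℝ → Conf N,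
          -- its motion
          (Motion w ∧ w 0 = z ∧ ∀ w' : ℝ → Conf N, Motion w' → w' 0 = z → w' = w) ∧
          -- the time averages exist
          (∀ F : Conf N → ℝ, Continuous F → ∃ l, TimeAvg w F l) ∧
          -- they are isotropic up to `e^(-cE)`, even for functions of all `N` vortices
          (∀ F : Conf N → ℝ, LipschitzWith 1 F → ∀ θ l l' : ℝ, TimeAvg w F l →
            TimeAvg w (fun x => F (fun i => Complex.exp (θ * Complex.I) * x i)) l' →
            |l' - l| ≤ Real.exp (-(c * E))) ∧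
          -- the time-averaged vorticity density is `μ_*` up to `e^(-cE)`
          (∀ f : ℂ → ℝ, LipschitzWith 1 f → ∀ l : ℝ,
            TimeAvg w (fun x => (∑ k, f (x k)) / N) l →
            |l - muStar N f| ≤ Real.exp (-(c * E))) := by
  obtain ⟨V⟩ := Pool.Agent.Lib_helper25.PV.exists_vflow N (by omega)
  obtain ⟨c, hc, E₁, h⟩ := Pool.Agent.Lib_helper12.HE.FI_main' N hN
  obtain ⟨cL, hcL, hL⟩ := Pool.Agent.Lib_helper12.HE.VL_lower N hN
  refine ⟨c, hc, max E₁ 0, fun E hE => ?_⟩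
  have hE1 : E ≥ E₁ := le_trans (le_max_left _ _) hE
  have hE0 : 0 ≤ E := le_trans (le_max_right _ _) hE
  obtain ⟨Bad, hsub, hBad, hgood⟩ := h E hE1
  have hpos : 0 < sigma N (High N E) := by
    rw [sigma_eq, High_eq]
    exact lt_of_lt_of_le (ENNReal.ofReal_pos.2 (by positivity)) (hL E hE0)
  have hfin : sigma N (High N E) < ⊤ := by
    rw [sigma_eq, High_eq]
    exact (measure_mono fun z hz => hz.1).trans_lt
      (Pool.Agent.Lib_helper12.HE.SH_finite N (by omega) 1)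
  refine ⟨hpos, hfin, Bad, by rw [High_eq]; exact hsub, ?_, ?_⟩
  · rw [sigma_eq, sigma_eq, High_eq]
    exact hBad
  · intro z hz hzB
    rw [High_eq] at hz
    have hm := V.motion z hz.1.1
    obtain ⟨h1, h2, h3⟩ := hgood z hz hzB (fun t => V.φ t z) hm (V.zero z)
    refine ⟨fun t => V.φ t z, ⟨hm, V.zero z, fun w' hw' hw0 => ?_⟩, h1, h2, h3⟩
    funext t
    have := V.uniq w' hw' t
    rw [hw0] at this
    exact this

end

end Pool.Agent.Results.MP_b08f5f_an.HighEnergy
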