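import Pool.Agent.Lib_helper68.MC.FE
import Pool.Agent.Lib_helper38.MC.EG

set_option autoImplicit false

namespace Pool.Agent.Results.MP_b08f5f_an.Microcanonical

open MeasureTheory Filter Topology Set
open scoped ComplexConjugate ENNReal

noncomputable section

/-- configurations of `N` points of the plane -/
abbrev Conf (N : ℕ) := Fin N → ℂ

/-- the velocities of `N` vortices of strength one: `-(i/2π) ∑_{j ≠ i} 1 / conj (z i - z j)` -/
def vel {N : ℕ} (z : Conf N) : Conf N := fun i =>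
  -(Complex.I / (2 * Real.pi)) * ∑ j ∈ Finset.univ.erase i, 1 / conj (z i - z j)

/-- `w` is, for all times and without collision, a solution of the vortex equations -/
def Motion {N : ℕ} (w : ℝ → Conf N) : Prop :=
  ∀ t, Function.Injective (w t) ∧ ∀ i, HasDerivAt (fun s => w s i) (vel (w t) i) t

/-- the energy `H = -(1/4π) ∑_{i ≠ j} log |z i - z j|` -/
def energy {N : ℕ} (z : Conf N) : ℝ :=
  -(1 / (4 * Real.pi)) * ∑ i, ∑ j ∈ Finset.univ.erase i, Real.log ‖z i - z j‖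

/-- the centre `Z` -/
def centre {N : ℕ} (z : Conf N) : ℂ := (∑ i, z i) / N

/-- the radius `r`, where `r ^ 2 = (1/N) ∑ |z i - Z| ^ 2` -/
def radius {N : ℕ} (z : Conf N) : ℝ := Real.sqrt ((∑ i, ‖z i - centre z‖ ^ 2) / N)

/-- the part `a ≤ H / N ^ 2 ≤ b` of the sphere `Γ_N`, without the collisions; `a = -∞` and `b = ∞`
are allowed -/
def Shell (N : ℕ) (a b : EReal) : Set (Conf N) :=
  {z | Function.Injective z ∧ ∑ i, z i = 0 ∧ (∑ i, ‖z i‖ ^ 2) / (N : ℝ) = 1 ∧
    a ≤ ((energy z / (N : ℝ) ^ 2 : ℝ) : EReal) ∧ ((energy z / (N : ℝ) ^ 2 : ℝ) : EReal) ≤ b}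

/-- the surface measure of `Γ_N`, up to a constant factor: the Lebesgue measure of the set of all
`z` with `|Z| ≤ 1`, `1 ≤ r < 2` and `(z - Z) / r ∈ B` -/
def sigma (N : ℕ) (B : Set (Conf N)) : ℝ≥0∞ :=
  volume {z : Conf N | ‖centre z‖ ≤ 1 ∧ 1 ≤ radius z ∧ radius z < 2 ∧
    (fun i => (z i - centre z) / radius z) ∈ B}

/-- the average `(1/N) ∑ f (z k)` over the vortices -/
def mean {N : ℕ} (f : ℂ → ℝ) (z : Conf N) : ℝ := (∑ k, f (z k)) / N

/-- `l` is the time average of `F` along `w` -/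
def TimeAvg {N : ℕ} (w : ℝ → Conf N) (F : Conf N → ℝ) (l : ℝ) : Prop :=
  Tendsto (fun T : ℝ => T⁻¹ * ∫ t in (0 : ℝ)..T, F (w t)) atTop (𝓝 l)

/-- probability densities of the plane with finite entropy and finite second moment -/
structure Density (ρ : ℂ → ℝ) : Prop where
  measurable : Measurable ρ
  nonneg : ∀ x, 0 ≤ ρ x
  integral : ∫ x, ρ x = 1
  finite_entropy : Integrable fun x => ρ x * Real.log (ρ x)
  finite_moment : Integrable fun x => ‖x‖ ^ 2 * ρ x

/-- the entropy `-∫ ρ log ρ` -/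
def entropy (ρ : ℂ → ℝ) : ℝ := -∫ x, ρ x * Real.log (ρ x)

/-- the second moment `∫ |x|² ρ` -/
def moment (ρ : ℂ → ℝ) : ℝ := ∫ x, ‖x‖ ^ 2 * ρ x

/-- the energy `-(1/4π) ∬ log |x - y| ρ(x) ρ(y)` of a density -/
def selfEnergy (ρ : ℂ → ℝ) : ℝ :=
  -(1 / (4 * Real.pi)) * ∫ p : ℂ × ℂ, Real.log ‖p.1 - p.2‖ * (ρ p.1 * ρ p.2)

/-- the Gaussian density -/
def gauss : ℂ → ℝ := fun x => Real.pi⁻¹ * Real.exp (-‖x‖ ^ 2)

/-- the energy `(γ - log 2) / (8π)` of the Gaussian density, `γ` Euler's constant -/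
def eGauss : ℝ := (Real.eulerMascheroniConstant - Real.log 2) / (8 * Real.pi)

/-- `ρ` is the equilibrium density for the energies `a ≤ E ≤ b`: among all probability densities of
such an energy, with second moment at most one, it alone has the largest entropy -/
structure MaxEntropy (a b : EReal) (ρ : ℂ → ℝ) : Prop where
  density : Density ρ
  radial : ∀ x y, ‖x‖ = ‖y‖ → ρ x = ρ y
  moment_eq : moment ρ = 1
  energy_eq : (selfEnergy ρ : EReal) = max a (min b (eGauss : ℝ))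
  largest : ∀ σ : ℂ → ℝ, Density σ → moment σ ≤ 1 → a ≤ (selfEnergy σ : ℝ) →
    ((selfEnergy σ : ℝ) : EReal) ≤ b → ¬ σ =ᵐ[volume] ρ → entropy σ < entropy ρ
  gaussian : a ≤ (eGauss : ℝ) → ((eGauss : ℝ) : EReal) ≤ b → ρ = gauss

/-- the vorticity density of `z` is `ε`-far from `ρ` -/
def FarFrom (ρ : ℂ → ℝ) {N : ℕ} (ε : ℝ) (z : Conf N) : Prop :=
  ∃ f : ℂ → ℝ, LipschitzWith 1 f ∧ ε < |mean f z - ∫ x, f x * ρ x|

theorem sigma_eq (N : ℕ) (B : Set (Conf N)) :
    sigma N B = Pool.Agent.Lib_helper12.HE.sig N B := by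
  unfold sigma Pool.Agent.Lib_helper12.HE.sig
  congr 1
  ext z
  have h : (fun i => (z i - centre z) / (radius z : ℂ)) = Pool.Agent.Lib_helper12.HE.nrm z := by
    funext i
    change (z i - centre z) / (radius z : ℂ) = ((radius z : ℝ) : ℂ)⁻¹ * (z i - centre z)
    rw [div_eq_inv_mul]
  simp only [mem_ofPred_eq, Pool.Agent.Lib_helper12.HE.shell]
  rw [h, one_add_one_eq_two]
  change _ ↔ (‖centre z‖ ≤ 1 ∧ 1 ≤ radius z ∧ radius z < 2) ∧ _
  tauto

theorem Shell_eq (N : ℕ) (a b : EReal) : Shell N a b = Pool.Agent.Lib_helper68.MC.WinE N a b := by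
  ext z
  change (Function.Injective z ∧ ∑ i, z i = 0 ∧ (∑ i, ‖z i‖ ^ 2) / (N : ℝ) = 1 ∧
      a ≤ ((energy z / (N : ℝ) ^ 2 : ℝ) : EReal) ∧
      ((energy z / (N : ℝ) ^ 2 : ℝ) : EReal) ≤ b) ↔
    (Function.Injective z ∧ ∑ i, z i = 0 ∧ (∑ i, ‖z i‖ ^ 2) / (N : ℝ) = 1) ∧
      a ≤ ((energy z / (N : ℝ) ^ 2 : ℝ) : EReal) ∧ ((energy z / (N : ℝ) ^ 2 : ℝ) : EReal) ≤ b
  tauto

theorem Density.toDens {ρ : ℂ → ℝ} (h : Density ρ) : Pool.Agent.Lib_helper68.MC.Dens ρ := by
  refine ⟨h.measurable, h.nonneg, ?_, h.integral, h.finite_entropy, h.finite_moment⟩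
  by_contra hcon
  have := integral_undef hcon
  rw [h.integral] at this
  exact one_ne_zero this

/-- Let `a < b`, finite or not, and let `b` exceed `(1 - 2 log 2) / (16 π)`, the infimum of the
energies of probability densities with second moment one. -/
theorem result (a b : EReal) (hab : a < b)
    (hb : (((1 - 2 * Real.log 2) / (16 * Real.pi) : ℝ) : EReal) < b) :
    -- the equilibrium density for the energies `a ≤ E ≤ b`
    ∃ ρ : ℂ → ℝ, MaxEntropy a b ρ ∧
    ∀ ε > 0, ∃ c > 0, ∃ N₀ : ℕ, ∀ N ≥ N₀,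
      0 < sigma N (Shell N a b) ∧ sigma N (Shell N a b) < ⊤ ∧
      ∃ Bad ⊆ Shell N a b,
        -- the exceptional data: an exponentially small share of the energy shell
        sigma N Bad ≤ ENNReal.ofReal (Real.exp (-(c * N))) * sigma N (Shell N a b) ∧
        -- every other datum
        ∀ z ∈ Shell N a b, z ∉ Bad → ∃ w : ℝ → Conf N,
          -- its motion
          (Motion w ∧ w 0 = z ∧ ∀ w' : ℝ → Conf N, Motion w' → w' 0 = z → w' = w) ∧
          -- the time averages exist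
          (∀ F : Conf N → ℝ, Continuous F → ∃ l, TimeAvg w F l) ∧
          -- the time-averaged vorticity density is `ρ` up to `ε`
          (∀ f : ℂ → ℝ, LipschitzWith 1 f → ∀ l : ℝ, TimeAvg w (mean f) l →
            |l - ∫ x, f x * ρ x| ≤ ε) ∧
          -- the vorticity density itself is `ρ` up to `ε`, except for an exponentially small share
          -- of time
          (∃ l ≤ Real.exp (-(c * N)),
            TimeAvg w ({x : Conf N | FarFrom ρ ε x}.indicator fun _ => 1) l) ∧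
          -- and without exception for an exponentially long time
          ∀ t, |t| ≤ Real.exp (c * N) → ¬ FarFrom ρ ε (w t) := by
  obtain ⟨e, ρ, he, hρ, hg⟩ := Pool.Agent.Lib_helper68.MC.FE_ex hab hb
    Pool.Agent.Lib_helper68.MC.EG_gt.le
  have hG : Pool.Agent.Lib_helper68.MC.En Pool.Agent.Lib_helper68.MC.gau
      Pool.Agent.Lib_helper68.MC.gau = eGauss := Pool.Agent.Lib_helper68.MC.EG_main
  have hrad : ∀ x y, ‖x‖ = ‖y‖ → ρ x = ρ y := by
    intro x y hxy
    by_cases hy : y = 0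
    · rw [hy, norm_zero, norm_eq_zero] at hxy
      rw [hy, hxy]
    · have hy' : ‖y‖ ≠ 0 := norm_ne_zero_iff.2 hy
      have := hρ.radial (x / y) (by rw [norm_div, hxy, div_self hy']) y
      rw [← this, div_mul_cancel₀ _ hy]
  refine ⟨ρ, ⟨⟨hρ.dens.meas, hρ.dens.nonneg, hρ.dens.one, hρ.dens.ent, hρ.dens.mom⟩, hrad,
    hρ.mo_eq, ?_, ?_, ?_⟩, ?_⟩
  · change (((Pool.Agent.Lib_helper68.MC.En ρ ρ : ℝ)) : EReal) = _
    rw [hρ.en_eq, he, hG]
  · intro σ hσ h1 h2 h3 h4
    exact Pool.Agent.Lib_helper68.MC.FE_largest hab he hρ hσ.toDens h1 h2 h3 h4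
  · intro h1 h2
    rw [← hG] at h1 h2
    exact hg h1 h2
  intro ε hε
  obtain ⟨c, hc, N₀, h⟩ := Pool.Agent.Lib_helper68.MC.F4_main hab hb he hρ hε
  refine ⟨c, hc, max N₀ 2, fun N hN => ?_⟩
  have hN0 : N ≥ N₀ := le_trans (le_max_left _ _) hN
  have hN2 : 2 ≤ N := le_trans (le_max_right _ _) hN
  obtain ⟨V⟩ := Pool.Agent.Lib_helper25.PV.exists_vflow N (by omega)
  obtain ⟨hpos, Bad, hsub, hBad, hgood⟩ := h N hN0
  have hfin : sigma N (Shell N a b) < ⊤ := by
    rw [sigma_eq, Shell_eq]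
    exact (measure_mono fun z hz => hz.1).trans_lt
      (Pool.Agent.Lib_helper12.HE.SH_finite N hN2 1)
  refine ⟨by rw [sigma_eq, Shell_eq]; exact hpos, hfin, Bad, by rw [Shell_eq]; exact hsub, ?_, ?_⟩
  · rw [sigma_eq, sigma_eq, Shell_eq]
    exact hBad
  · intro z hz hzB
    rw [Shell_eq] at hz
    have hm := V.motion z hz.1.1
    obtain ⟨h1, h2, h3, h4⟩ := hgood z hz hzB (fun t => V.φ t z) hm (V.zero z)
    refine ⟨fun t => V.φ t z, ⟨hm, V.zero z, fun w' hw' hw0 => ?_⟩, h1, h2, h3, h4⟩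
    funext t
    have := V.uniq w' hw' t
    rw [hw0] at this
    exact this

end

end Pool.Agent.Results.MP_b08f5f_an.Microcanonical
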