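import Pool.Agent.Lib_helper59.PV.NearIsoEnergy

/-!
# Time averages of point vortices are isotropic up to an explicit error

`N` point vortices of strength one in the plane `ℂ`, on `Γ_N` (centre `0`, moment one). For EVERY
motion and every time `T` the time averages of the rotated and of the unrotated configuration differ
by at most `|θ| * (√(1 - 1 / κ) + 2 / (Ω * κ * T))`, where `κ` is the mean of the sum of the squared
speeds over `[0, T]` divided by its smallest possible value, equivalently the mean speed of rotation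
of the product of all differences `z i - z j`; and by at most `C * (√(H - min H) + 1 / T)`, where
`H` is the energy and `C` depends on `N` only.
-/

set_option autoImplicit false

namespace Pool.Agent.Results.MP_b08f5f_an.NearIsotropy

open MeasureTheory Filter Topology Set
open scoped ComplexConjugate

/-- configurations of `N` points of the plane -/
abbrev Conf (N : ℕ) := Fin N → ℂ

/-- the velocities of `N` vortices of strength one:
`x_i' = (1/2π) ∑ (y_i - y_j)/|z_i - z_j|²`, `y_i' = -(1/2π) ∑ (x_i - x_j)/|z_i - z_j|²` -/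
noncomputable def vel {N : ℕ} (z : Conf N) : Conf N := fun i =>
  -(Complex.I / (2 * Real.pi)) * ∑ j ∈ Finset.univ.erase i, 1 / conj (z i - z j)

/-- `w` is a motion of the vortices, for all times, without collision -/
def Motion {N : ℕ} (w : ℝ → Conf N) : Prop :=
  ∀ t, Function.Injective (w t) ∧ ∀ i, HasDerivAt (fun s => w s i) (vel (w t) i) t

/-- `Γ_N`: distinct points, centre `0`, moment one -/
def Gam (N : ℕ) : Set (Conf N) :=
  {z | Function.Injective z ∧ ∑ i, z i = 0 ∧ (∑ i, ‖z i‖ ^ 2) / (N : ℝ) = 1}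

/-- the sum of the squared speeds -/
noncomputable def K {N : ℕ} (z : Conf N) : ℝ := ∑ i, ‖vel z i‖ ^ 2

/-- the speed of rotation of the relative equilibria on `Γ_N` -/
noncomputable def Om (N : ℕ) : ℝ := ((N : ℝ) - 1) / (4 * Real.pi)

/-- the mean of `K` over `[0, T]` divided by `N Ω²` -/
noncomputable def kappa {N : ℕ} (w : ℝ → Conf N) (T : ℝ) : ℝ :=
  T⁻¹ * ∫ t in (0 : ℝ)..T, K (w t) / (N * Om N ^ 2)

/-- the energy `H = -(1/4π) ∑_{i ≠ j} log |z_i - z_j|` -/
noncomputable def H {N : ℕ} (z : Conf N) : ℝ :=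
  -(1 / (4 * Real.pi)) * ∑ i, ∑ j ∈ Finset.univ.erase i, Real.log ‖z i - z j‖

/-- the product of all differences -/
def disc {N : ℕ} (z : Conf N) : ℂ := ∏ i, ∏ j ∈ Finset.univ.erase i, (z i - z j)

/-- rotation by the angle `θ` -/
noncomputable def turn {N : ℕ} (θ : ℝ) (z : Conf N) : Conf N :=
  fun k => Complex.exp (θ * Complex.I) * z k

/-- `Ψ` is `1`-Lipschitz for the root mean square distance of configurations -/
def Lip {N : ℕ} (Ψ : Conf N → ℝ) : Prop :=
  ∀ y z : Conf N, |Ψ y - Ψ z| ≤ Real.sqrt ((∑ k, ‖y k - z k‖ ^ 2) / N)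

/-- the time average of `Ψ` over `[0, T]` -/
noncomputable def avg {N : ℕ} (w : ℝ → Conf N) (Ψ : Conf N → ℝ) (T : ℝ) : ℝ :=
  T⁻¹ * ∫ t in (0 : ℝ)..T, Ψ (w t)

/-- the integrated form of the rotation of the product of the differences -/
theorem disc_formula {N : ℕ} {w : ℝ → Conf N} (hw : Motion w) (t : ℝ) :
    disc (w t) = Complex.exp (-(4 * Real.pi * ((∫ s in (0 : ℝ)..t, K (w s) : ℝ) : ℂ) * Complex.I)) *
      disc (w 0) := by
  have hw' : Pool.Agent.Lib_helper25.PV.Motion w := hw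
  have hkc : Continuous fun t => K (w t) := Pool.Agent.Lib_helper25.PV.B7_kin_cont hw'
  set F : ℝ → ℂ := fun t => Complex.exp (4 * Real.pi * ((∫ s in (0 : ℝ)..t, K (w s) : ℝ) : ℂ) *
    Complex.I) * disc (w t) with hF
  have hd : ∀ t, HasDerivAt F 0 t := by
    intro t
    have h1 : HasDerivAt (fun t : ℝ => ∫ s in (0 : ℝ)..t, K (w s)) (K (w t)) t :=
      intervalIntegral.integral_hasDerivAt_right (hkc.intervalIntegrable _ _)
        (hkc.stronglyMeasurableAtFilter _ _) hkc.continuousAt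
    have h2 := ((h1.ofReal_comp.const_mul (4 * Real.pi : ℂ)).mul_const Complex.I).cexp
    have h3 : HasDerivAt (fun s => disc (w s))
        (-(4 * Real.pi * K (w t) * Complex.I) * disc (w t)) t :=
      Pool.Agent.Lib_helper25.PV.Disc_hasDerivAt hw' t
    refine (h2.mul h3).congr_deriv ?_
    ring
  have hdiff : Differentiable ℝ F := fun s => (hd s).differentiableAt
  have h0 := is_const_of_deriv_eq_zero hdiff (fun s => (hd s).deriv) t 0
  simp only [hF, intervalIntegral.integral_same, Complex.ofReal_zero, mul_zero, zero_mul,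
    Complex.exp_zero, one_mul] at h0
  rw [← h0, ← mul_assoc, ← Complex.exp_add]
  simp

/-- **Isotropy of the time averages up to an explicit error, for every motion.** -/
theorem result (N : ℕ) (hN : 2 ≤ N) :
    ∃ C > 0, ∃ z₀ ∈ Gam N, (∀ z ∈ Gam N, H z₀ ≤ H z) ∧
    ∀ w : ℝ → Conf N, Motion w → w 0 ∈ Gam N →
      (∀ t, disc (w t) = Complex.exp (-(4 * Real.pi * ((∫ s in (0 : ℝ)..t, K (w s) : ℝ) : ℂ) *
        Complex.I)) * disc (w 0)) ∧
      ∀ T > 0, 1 ≤ kappa w T ∧ ∀ Ψ : Conf N → ℝ, Lip Ψ → ∀ θ : ℝ,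
        |avg w (fun z => Ψ (turn θ z)) T - avg w Ψ T| ≤
          |θ| * (Real.sqrt (1 - 1 / kappa w T) + 2 / (Om N * kappa w T * T)) ∧
        |avg w (fun z => Ψ (turn θ z)) T - avg w Ψ T| ≤
          C * (Real.sqrt (H (w 0) - H z₀) + 1 / T) := by
  have hN0 : (N : ℝ) ≠ 0 := by
    have : N ≠ 0 := by omega
    exact_mod_cast this
  have hN0c : (N : ℂ) ≠ 0 := by exact_mod_cast hN0
  have hto : ∀ z ∈ Gam N, z ∈ Pool.Agent.Lib_helper25.PV.Gam N := by
    intro z hz
    refine ⟨?_, ?_⟩
    · unfold Pool.Agent.Lib_helper25.PV.centre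
      rw [hz.2.1, zero_div]
    · have h1 := hz.2.2
      rw [div_eq_iff hN0, one_mul] at h1
      exact h1
  have hfrom : ∀ z ∈ Pool.Agent.Lib_helper25.PV.Gam N, Function.Injective z → z ∈ Gam N := by
    intro z hz hinj
    refine ⟨hinj, ?_, ?_⟩
    · have h1 := hz.1
      unfold Pool.Agent.Lib_helper25.PV.centre at h1
      exact (div_eq_zero_iff.mp h1).resolve_right hN0c
    · have h1 : ∑ i, ‖z i‖ ^ 2 = (N : ℝ) := hz.2
      rw [h1, div_self hN0]
  obtain ⟨C, hC, z₀, hz₀, hinj₀, hmin, h⟩ := Pool.Agent.Lib_helper25.PV.near_isotropy_energy hN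
  refine ⟨C, hC, z₀, hfrom z₀ hz₀ hinj₀, fun z hz => hmin z (hto z hz) hz.1, fun w hw hG =>
    ⟨fun t => disc_formula hw t, fun T hT => ⟨?_, fun Ψ hΨ θ => ⟨?_, ?_⟩⟩⟩⟩
  · exact Pool.Agent.Lib_helper25.PV.kap_ge_one hN hw (hto _ hG).2 hT
  · exact Pool.Agent.Lib_helper25.PV.near_isotropy_ineq hN hw (hto _ hG).2 hΨ θ hT
  · exact h w hw (hto _ hG) Ψ hΨ θ T hT

end Pool.Agent.Results.MP_b08f5f_an.NearIsotropy
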