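import Pool.Agent.Lib_helper23.PV.ZF
import Pool.Agent.Lib_helper25.PV.Flow

set_option autoImplicit false

namespace Pool.Agent.Results.MP_b08f5f_an.ZeroOneLaw

open MeasureTheory Filter Topology Set
open scoped ComplexConjugate

noncomputable section

/-- configurations of `N` points of the plane -/
abbrev Conf (N : ℕ) := Fin N → ℂ

/-- the velocities of `N` vortices of strength one: `-(i/2π) ∑_{j ≠ i} 1 / conj (z i - z j)` -/
def vel {N : ℕ} (z : Conf N) : Conf N := fun i =>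
  -(Complex.I / (2 * Real.pi)) * ∑ j ∈ Finset.univ.erase i, 1 / conj (z i - z j)

/-- `w` solves, for all times and without collision, the vortex equations of the problem -/
def Motion {N : ℕ} (w : ℝ → Conf N) : Prop :=
  ∀ t, Function.Injective (w t) ∧ ∀ i, HasDerivAt (fun s => w s i) (vel (w t) i) t

/-- the points seen from their centre -/
def seen {N : ℕ} (z : Conf N) : Conf N := fun i => z i - (∑ j, z j) / N

/-- the rotation of all points by the angle `θ` about the origin -/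
def turn {N : ℕ} (θ : ℝ) (z : Conf N) : Conf N := fun i => Complex.exp (θ * Complex.I) * z i

theorem result (N : ℕ) (hN : 2 ≤ N) :
    (∀ z : Conf N, Function.Injective z → ∃! w : ℝ → Conf N, Motion w ∧ w 0 = z) ∧
    ∀ᵐ z : Conf N, ∀ w : ℝ → Conf N, Motion w → w 0 = z →
      ∃ ν : Measure (Conf N), IsProbabilityMeasure ν ∧
        (∀ Ψ : Conf N → ℝ, Continuous Ψ → Tendsto (fun T : ℝ => T⁻¹ *
          ∫ t in (0 : ℝ)..T, Ψ (seen (w t))) atTop (𝓝 (∫ y, Ψ y ∂ν))) ∧
        ((∀ θ : ℝ, ν.map (turn θ) = ν) ∨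
          ∃ m : ℕ, 0 < m ∧ ν.map (turn (2 * Real.pi / m)) = ν ∧
            ∃ S : Set (Conf N), MeasurableSet S ∧ ν Sᶜ = 0 ∧
              ∀ y ∈ S, ∀ θ : ℝ, turn θ y ∈ S ↔ ∃ n : ℤ, θ = 2 * Real.pi * n / m) := by
  obtain ⟨V⟩ := Pool.Agent.Lib_helper25.PV.exists_vflow N (by omega)
  refine ⟨fun z hz => ⟨fun t => V.φ t z, ⟨V.motion z hz, V.zero z⟩, ?_⟩, ?_⟩
  · rintro w ⟨hw, hw0⟩
    funext t
    rw [V.uniq w hw t, hw0]
  · filter_upwards [Pool.Agent.Lib_helper23.PV.ZF_ae V] with z hz w hw hw0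
    obtain ⟨ν, hν, hlim, hd⟩ := hz
    refine ⟨ν, hν, fun Ψ hΨ => ?_, hd⟩
    have h1 : ∀ t, seen (w t) = Pool.Agent.Lib_helper25.PV.seen 0 (V.φ t z) := by
      intro t
      rw [V.uniq w hw t, hw0, Pool.Agent.Lib_helper25.PV.ZE_seen0]
      rfl
    have h2 := hlim Ψ hΨ
    simp only [← h1] at h2
    exact h2

end

end Pool.Agent.Results.MP_b08f5f_an.ZeroOneLaw
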